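import Mathlib
import Pool.Agent.Lib.helper23.PW

set_option linter.unusedSectionVars false

namespace Pool.Agent.H.MP_d09f5b_an
open MeasureTheory Filter Topology

variable {K : Type} [AddCommGroup K] [TopologicalSpace K]

def X (K : Type) [AddCommGroup K] [TopologicalSpace K] : Set C(K, ℂ) :=
  {f | (∀ x, ‖f x‖ = 1) ∧ ∀ x y, f (x + y) = f x * f y}

lemma X_mul {f g : C(K, ℂ)} (hf : f ∈ X K) (hg : g ∈ X K) : f * g ∈ X K :=
  ⟨fun x => by simp [hf.1, hg.1], fun x y => by simp [hf.2, hg.2]; ring⟩

lemma X_star {f : C(K, ℂ)} (hf : f ∈ X K) : star f ∈ X K :=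
  ⟨fun x => by simp [hf.1], fun x y => by simp [hf.2]⟩

lemma star_mul_X {f : C(K, ℂ)} (hf : f ∈ X K) (x : K) : star (f x) * f x = 1 := by
  rw [Complex.star_def, Complex.conj_mul', hf.1]; simp

noncomputable def A (K : Type) [AddCommGroup K] [TopologicalSpace K] : StarSubalgebra ℂ C(K, ℂ) where
  toSubalgebra := (Submodule.span ℂ (X K)).toSubalgebra
    (Submodule.subset_span ⟨by simp, by simp⟩) fun f g hf hg => by
      have : Submodule.span ℂ (X K) * Submodule.span ℂ (X K) ≤ Submodule.span ℂ (X K) := by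
        rw [Submodule.span_mul_span, Submodule.span_le]
        rintro _ ⟨f, hf, g, hg, rfl⟩
        exact Submodule.subset_span (X_mul hf hg)
      exact this (Submodule.mul_mem_mul hf hg)
  star_mem' := by
    intro f hf
    change f ∈ Submodule.span ℂ (X K) at hf
    change star f ∈ Submodule.span ℂ (X K)
    induction hf using Submodule.span_induction with
    | mem f hf => exact Submodule.subset_span (X_star hf)
    | zero => simp
    | add f g _ _ h1 h2 => rw [star_add]; exact add_mem h1 h2
    | smul a f _ h1 => rw [star_smul]; exact Submodule.smul_mem _ _ h1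

variable [IsTopologicalAddGroup K] [CompactSpace K] [T2Space K]

lemma dense_span : Dense (Submodule.span ℂ (X K) : Set C(K, ℂ)) := by
  have h : (A K).SeparatesPoints := by
    intro x y hxy
    obtain ⟨χ, hc, h0⟩ := Pool.Agent.Lib.helper23.PW.cpt (sub_ne_zero.2 hxy)
    let f : C(K, ℂ) := ⟨fun z => (AddCircle.toCircle (χ z) : ℂ), by
      have := AddCircle.continuous_toCircle (T := (1 : ℝ))
      fun_prop⟩
    refine ⟨f, ⟨f, Submodule.subset_span ⟨fun z => by simp [f], fun a b => by
      simp [f, AddCircle.toCircle_add]⟩, rfl⟩, fun e => h0 ?_⟩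
    have := AddCircle.injective_toCircle one_ne_zero (Circle.ext e)
    rw [map_sub, this, sub_self]
  have := ContinuousMap.starSubalgebra_topologicalClosure_eq_top_of_separatesPoints (A K) h
  intro f
  have hf : f ∈ (A K).topologicalClosure := by rw [this]; trivial
  exact hf

variable [MeasurableSpace K] [BorelSpace K] (μ : Measure K) [μ.IsAddHaarMeasure]

omit [IsTopologicalAddGroup K] [T2Space K] in
lemma cint {E : Type} [NormedAddCommGroup E] {f : K → E} (hf : Continuous f) : Integrable f μ :=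
  hf.integrable_of_hasCompactSupport (HasCompactSupport.of_compactSpace f)

lemma intc {Y E : Type} [TopologicalSpace Y] [NormedAddCommGroup E] [NormedSpace ℝ E] {F : Y → K → E}
    (hF : Continuous (Function.uncurry F)) : Continuous fun y => ∫ x, F y x ∂μ := by
  have h1 : Continuous fun g : C(K, E) => ∫ x, g x ∂μ := by
    refine (LipschitzWith.of_dist_le_mul (K := ⟨μ.real Set.univ, measureReal_nonneg⟩)
      fun f g => ?_).continuous
    rw [dist_eq_norm, dist_eq_norm, ← integral_sub (cint μ f.continuous) (cint μ g.continuous),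
      mul_comm]
    exact norm_integral_le_of_norm_le_const (ae_of_all _ fun x => (f - g).norm_coe_le_norm x)
  exact h1.comp (ContinuousMap.curry ⟨_, hF⟩).continuous

omit [CompactSpace K] [T2Space K] in
lemma orth {f g : C(K, ℂ)} (hf : f ∈ X K) (hg : g ∈ X K) (h : f ≠ g) :
    ∫ x, star (f x) * g x ∂μ = 0 := by
  obtain ⟨y, hy⟩ := DFunLike.ne_iff.1 h
  have h1 := integral_add_left_eq_self (μ := μ) (fun x => star (f x) * g x) y
  have h2 : ∀ x, star (f (y + x)) * g (y + x) = (star (f y) * g y) * (star (f x) * g x) := by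
    intro x; rw [hf.2, hg.2, star_mul']; ring
  simp only [h2, integral_const_mul] at h1
  have h3 : star (f y) * g y ≠ 1 := by
    intro e
    apply hy
    have := star_mul_X hf y
    linear_combination (-f y) * e + g y * this
  have : (star (f y) * g y - 1) * ∫ x, star (f x) * g x ∂μ = 0 := by rw [sub_mul, h1]; ring
  exact (mul_eq_zero.1 this).resolve_left (sub_ne_zero.2 h3)

variable {E : Type} [NormedAddCommGroup E] [NormedSpace ℂ E] [CompleteSpace E]

structure Rp (l : K → E →L[ℂ] E) (e : C(K, ℂ) → E) : Prop where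
  zero : ∀ v, l 0 v = v
  comm : ∀ x y, l x * l y = l y * l x
  norm : ∀ x v, ‖l x v‖ = ‖v‖
  cont : ∀ v, Continuous fun x => l x v
  eig : ∀ f ∈ X K, ∀ x, l x (e f) = f x • e f
  ne : ∀ f ∈ X K, e f ≠ 0
  dense : Dense (Submodule.span ℂ (e '' X K) : Set E)

variable {l : K → E →L[ℂ] E} {e : C(K, ℂ) → E}

noncomputable def C (h : Rp l e) (k : C(K, ℂ)) : E →L[ℂ] E :=
  LinearMap.mkContinuous
    { toFun := fun v => ∫ x, k x • l x v ∂μ
      map_add' := fun v w => by
        simp only [map_add, smul_add]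
        exact integral_add (cint μ (k.continuous.smul (h.cont v)))
          (cint μ (k.continuous.smul (h.cont w)))
      map_smul' := fun a v => by
        simp only [map_smul, smul_comm (k _) a, integral_smul, RingHom.id_apply] }
    (∫ x, ‖k x‖ ∂μ) fun v => by
      refine (norm_integral_le_integral_norm _).trans (le_of_eq ?_)
      simp only [norm_smul, h.norm, integral_mul_const]

lemma C_apply (h : Rp l e) (k : C(K, ℂ)) (v : E) : C μ h k v = ∫ x, k x • l x v ∂μ := rfl

lemma C_norm (h : Rp l e) (k : C(K, ℂ)) : ‖C μ h k‖ ≤ ∫ x, ‖k x‖ ∂μ :=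
  LinearMap.mkContinuous_norm_le _ (integral_nonneg fun _ => norm_nonneg _) _

lemma C_comm (h : Rp l e) (k : C(K, ℂ)) {S : E →L[ℂ] E} (hS : ∀ x, l x * S = S * l x) :
    S * C μ h k = C μ h k * S := by
  ext v
  rw [mul_apply_eq_comp, mul_apply_eq_comp, C_apply, C_apply,
    ← S.integral_comp_comm (φ := fun x => k x • l x v) (cint μ (k.continuous.smul (h.cont v)))]
  refine integral_congr_ae (ae_of_all _ fun x => ?_)
  have := DFunLike.congr_fun (hS x) v
  simp only [mul_apply_eq_comp] at this
  simp only [map_smul, this]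

lemma C_add (h : Rp l e) (k k' : C(K, ℂ)) : C μ h (k + k') = C μ h k + C μ h k' := by
  ext v
  simp only [C_apply, _root_.add_apply, ContinuousMap.add_apply, add_smul]
  exact integral_add (cint μ (k.continuous.smul (h.cont v))) (cint μ (k'.continuous.smul (h.cont v)))

lemma C_smul (h : Rp l e) (a : ℂ) (k : C(K, ℂ)) : C μ h (a • k) = a • C μ h k := by
  ext v
  simp only [C_apply, _root_.smul_apply, ContinuousMap.smul_apply, smul_assoc,
    integral_smul]

lemma C_eig (h : Rp l e) (k : C(K, ℂ)) {g : C(K, ℂ)} {v : E} (hv : ∀ x, l x v = g x • v) :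
    C μ h k v = (∫ x, k x * g x ∂μ) • v := by
  simp only [C_apply, hv, smul_smul, integral_smul_const]

lemma P_mem (h : Rp l e) {f : C(K, ℂ)} (hf : f ∈ X K) (v : E) :
    C μ h (star f) v ∈ Submodule.span ℂ {e f} := by
  refine h.dense.induction (P := fun v => C μ h (star f) v ∈ Submodule.span ℂ {e f}) ?_
    ((Submodule.closed_of_finiteDimensional _).preimage (C μ h (star f)).continuous) v
  intro v hv
  induction hv using Submodule.span_induction with
  | mem v hv =>
    obtain ⟨g, hg, rfl⟩ := hv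
    rw [C_eig μ h _ (h.eig g hg)]
    by_cases hfg : f = g
    · subst hfg; exact Submodule.smul_mem _ _ (Submodule.subset_span rfl)
    · have := orth μ hf hg hfg
      simp only [ContinuousMap.star_apply, this, zero_smul, zero_mem]
  | zero => simp
  | add v w _ _ h1 h2 => rw [map_add]; exact add_mem h1 h2
  | smul a v _ h1 => rw [map_smul]; exact Submodule.smul_mem _ _ h1

lemma P_eig (h : Rp l e) {f : C(K, ℂ)} (hf : f ∈ X K) {v : E} (hv : ∀ x, l x v = f x • v) :
    C μ h (star f) v = (μ.real Set.univ : ℂ) • v := by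
  rw [C_eig μ h _ hv]
  simp [-Complex.star_def, -RCLike.star_def, star_mul_X hf]

include μ in
theorem key (h : Rp l e) {T : E →L[ℂ] E} (hT : ∀ x, l x * T = T * l x) {c : ℝ} (hc : 0 < c)
    (hb : ∀ S : E →L[ℂ] E, (∀ x, l x * S = S * l x) → c * ‖S‖ ≤ ‖T * S‖) : IsUnit T := by
  have hm : (μ.real Set.univ : ℂ) ≠ 0 := by
    have : 0 < μ.real Set.univ := measureReal_univ_pos
    exact_mod_cast this.ne'
  have hC : ∀ k x, l x * C μ h k = C μ h k * l x := fun k x => C_comm μ h k fun y => h.comm y x
  have ht : ∀ f ∈ X K, ∃ t : ℂ, t ≠ 0 ∧ T (e f) = t • e f ∧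
      T * C μ h (star f) = t • C μ h (star f) := by
    intro f hf
    have h1 : ∀ x, l x (T (e f)) = f x • T (e f) := by
      intro x
      have := DFunLike.congr_fun (hT x) (e f)
      simp only [mul_apply_eq_comp] at this
      rw [this, h.eig f hf, map_smul]
    have h2 := P_mem μ h hf (T (e f))
    rw [P_eig μ h hf h1, Submodule.smul_mem_iff _ hm, Submodule.mem_span_singleton] at h2
    obtain ⟨t, h2⟩ := h2
    have h3 : T * C μ h (star f) = t • C μ h (star f) := by
      ext v
      obtain ⟨s, hs⟩ := Submodule.mem_span_singleton.1 (P_mem μ h hf v)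
      rw [mul_apply_eq_comp, _root_.smul_apply, ← hs, map_smul, ← h2,
        smul_comm]
    refine ⟨t, ?_, h2.symm, h3⟩
    rintro rfl
    have h4 := hb _ (hC (star f))
    rw [h3, zero_smul, norm_zero] at h4
    have h5 : C μ h (star f) = 0 := norm_le_zero_iff.1 (by nlinarith)
    have h6 := P_eig μ h hf (h.eig f hf)
    rw [h5] at h6
    exact h.ne f hf ((smul_eq_zero.1 h6.symm).resolve_left hm)
  have hS : ∀ k ∈ Submodule.span ℂ (X K), ∃ k' : C(K, ℂ), T * C μ h k' = C μ h k := by
    intro k hk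
    induction hk using Submodule.span_induction with
    | mem f hf =>
      obtain ⟨t, t0, -, h3⟩ := ht _ (X_star hf)
      rw [star_star] at h3
      exact ⟨t⁻¹ • f, by rw [C_smul, mul_smul_comm, h3, smul_smul, inv_mul_cancel₀ t0, one_smul]⟩
    | zero => exact ⟨0, by ext v; simp [C_apply]⟩
    | add f g _ _ h1 h2 =>
      obtain ⟨a, h1⟩ := h1
      obtain ⟨b, h2⟩ := h2
      exact ⟨a + b, by rw [C_add, C_add, mul_add, h1, h2]⟩
    | smul s f _ h1 =>
      obtain ⟨a, h1⟩ := h1
      exact ⟨s • a, by rw [C_smul, C_smul, mul_smul_comm, h1]⟩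
  have hk : ∀ v (k : C(K, ℂ)), c * ‖C μ h k v‖ ≤ (∫ x, ‖k x‖ ∂μ) * ‖T v‖ := by
    intro v k
    refine dense_span.induction (P := fun k => c * ‖C μ h k v‖ ≤ (∫ x, ‖k x‖ ∂μ) * ‖T v‖) ?_ ?_ k
    · intro k hk
      obtain ⟨k', hk'⟩ := hS k hk
      have h1 := hb _ (hC k')
      rw [hk'] at h1
      have h2 := (C μ h k').le_opNorm (T v)
      rw [← mul_apply_eq_comp, ← C_comm μ h k' hT, hk'] at h2
      have h3 := C_norm μ h k
      calc _ ≤ c * (‖C μ h k'‖ * ‖T v‖) := by gcongr
        _ = (c * ‖C μ h k'‖) * ‖T v‖ := by ring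
        _ ≤ _ := by gcongr; exact h1.trans h3
    · have hv := h.cont v
      have c1 : Continuous fun k : C(K, ℂ) => ∫ x, k x • l x v ∂μ :=
        intc μ (F := fun (k : C(K, ℂ)) x => k x • l x v) (by fun_prop)
      have c2 : Continuous fun k : C(K, ℂ) => ∫ x, ‖k x‖ ∂μ :=
        intc μ (F := fun (k : C(K, ℂ)) x => ‖k x‖) (by fun_prop)
      exact isClosed_le (continuous_const.mul c1.norm) (c2.mul continuous_const)
  have hlow : ∀ v, c * ‖v‖ ≤ ‖T v‖ := by
    intro v
    refine le_of_forall_pos_le_add fun δ hδ => ?_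
    have hv := h.cont v
    have hε : 0 < δ / c := by positivity
    let r : K → ℝ := fun x => max (δ / c - ‖l x v - v‖) 0
    have rc : Continuous r := by fun_prop
    have r0 : ∀ x, 0 ≤ r x := fun x => le_max_right _ _
    have hI : 0 < ∫ x, r x ∂μ := rc.integral_pos_of_hasCompactSupport_nonneg_nonzero
      (HasCompactSupport.of_compactSpace r) r0 (x := 0) (by simp [r, h.zero, hε])
    have h1 := hk v ⟨fun x => r x, by fun_prop⟩
    simp only [C_apply, ContinuousMap.coe_mk, Complex.norm_real, Real.norm_of_nonneg (r0 _)] at h1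
    have h2 : ‖(∫ x, (r x : ℂ) • l x v ∂μ) - ((∫ x, r x ∂μ : ℝ) : ℂ) • v‖ ≤
        (∫ x, r x ∂μ) * (δ / c) := by
      rw [← integral_complex_ofReal, ← integral_smul_const, ← integral_sub (cint μ (by fun_prop))
        (cint μ (by fun_prop)), ← integral_mul_const]
      refine norm_integral_le_of_norm_le (cint μ (by fun_prop)) (ae_of_all _ fun x => ?_)
      rw [← smul_sub, norm_smul, Complex.norm_real, Real.norm_of_nonneg (r0 x)]
      rcases le_total (δ / c - ‖l x v - v‖) 0 with h3 | h3
      · simp [r, h3]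
      · exact mul_le_mul_of_nonneg_left (by linarith) (r0 x)
    have h3 := norm_sub_norm_le (((∫ x, r x ∂μ : ℝ) : ℂ) • v) (∫ x, (r x : ℂ) • l x v ∂μ)
    rw [norm_sub_rev, norm_smul, Complex.norm_real, Real.norm_of_nonneg hI.le] at h3
    have h4 : c * (δ / c) = δ := by field_simp
    refine le_of_mul_le_mul_left ?_ hI
    nlinarith
  have anti : AntilipschitzWith ⟨c⁻¹, by positivity⟩ T := T.antilipschitz_of_bound fun v => by
    show ‖v‖ ≤ c⁻¹ * ‖T v‖
    rw [← div_eq_inv_mul, le_div_iff₀' hc]; exact hlow v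
  rw [ContinuousLinearMap.isUnit_iff_bijective]
  refine ⟨anti.injective, fun w => ?_⟩
  refine h.dense.induction (P := fun w => w ∈ Set.range T) ?_
    (anti.isClosed_range T.uniformContinuous) w
  intro w hw
  refine (Submodule.span_le (p := LinearMap.range T.toLinearMap)).2 ?_ hw
  rintro _ ⟨f, hf, rfl⟩
  obtain ⟨t, t0, h2, -⟩ := ht f hf
  exact ⟨t⁻¹ • e f, by simp [h2, smul_smul, inv_mul_cancel₀ t0]⟩

end Pool.Agent.H.MP_d09f5b_an
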