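import Mathlib
import Pool.Agent.H.MP_d09f5b_an.A

set_option linter.unusedSectionVars false

namespace Pool.Agent.H.MP_d09f5b_an
open MeasureTheory Filter Topology ENNReal

variable {G : Type} [AddCommGroup G] [TopologicalSpace G] [IsTopologicalAddGroup G]
  [CompactSpace G] [T2Space G] [MeasurableSpace G] [BorelSpace G] (μ : Measure G)
  [μ.IsAddHaarMeasure]

include μ in
theorem perm {E : Type} [NormedAddCommGroup E] [NormedSpace ℂ E] [CompleteSpace E]
    {l : G → E →L[ℂ] E} {e : C(G, ℂ) → E} (R : Rp l e) (B : Type) [NormedRing B]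
    [NormedAlgebra ℂ B] (ι : Subalgebra.centralizer ℂ (Set.range l) →ₐ[ℂ] B)
    (hι : IsEmbedding ι) (x : Subalgebra.centralizer ℂ (Set.range l)) :
    spectrum ℂ (ι x) = spectrum ℂ x := by
  suffices ∀ y, IsUnit (ι y) → IsUnit y by
    refine Set.Subset.antisymm (AlgHom.spectrum_apply_subset ι x) fun z hz h => hz (this _ ?_)
    rw [map_sub, AlgHom.commutes]
    exact h
  intro y hy
  obtain ⟨u, hu⟩ := hy
  let j : Subalgebra.centralizer ℂ (Set.range l) →L[ℂ] B := ⟨ι.toLinearMap, hι.continuous⟩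
  obtain ⟨k, hk⟩ := j.antilipschitz_of_isEmbedding hι
  obtain ⟨M, M0, hM⟩ := j.bound
  have hT : ∀ x, l x * y = y * l x := fun x => y.2 _ ⟨x, rfl⟩
  obtain ⟨D, hD, hD'⟩ : ∃ D : ℝ, 0 < D ∧ ∀ S : Subalgebra.centralizer ℂ (Set.range l),
      ‖S‖ ≤ D * ‖y * S‖ := by
    refine ⟨k * (‖(↑u⁻¹ : B)‖ * M) + 1, by positivity, fun S => ?_⟩
    have h1 : ‖S‖ ≤ k * ‖ι S‖ := hk.le_mul_norm (map_zero _) S
    have h2 : ‖ι S‖ ≤ ‖(↑u⁻¹ : B)‖ * ‖ι (y * S)‖ := by
      refine le_of_eq_of_le ?_ (norm_mul_le _ _)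
      rw [map_mul, ← hu, Units.inv_mul_cancel_left]
    have h3 : ‖ι (y * S)‖ ≤ M * ‖y * S‖ := hM (y * S)
    calc ‖S‖ ≤ k * (‖(↑u⁻¹ : B)‖ * (M * ‖y * S‖)) := h1.trans (by gcongr; exact h2.trans (by gcongr))
      _ ≤ _ := by
        rw [add_mul, one_mul, mul_assoc, mul_assoc]; exact le_add_of_nonneg_right (norm_nonneg _)
  obtain ⟨w, hw⟩ := key μ R hT (inv_pos.2 hD) fun S hS => by
    rw [← div_eq_inv_mul, div_le_iff₀' hD]
    exact hD' ⟨S, by rintro _ ⟨x, rfl⟩; exact hS x⟩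
  have hi : (↑w⁻¹ : E →L[ℂ] E) ∈ Subalgebra.centralizer ℂ (Set.range l) := by
    rintro _ ⟨x, rfl⟩
    exact (Commute.units_inv_right (show Commute (l x) w from hw ▸ hT x)).eq
  exact ⟨⟨y, ⟨_, hi⟩, Subtype.ext (by simp [← hw]), Subtype.ext (by simp [← hw])⟩, rfl⟩

theorem rp (p : ℝ≥0∞) [Fact (1 ≤ p)] (hp : p ≠ ⊤) (l : G → Lp ℂ p μ →L[ℂ] Lp ℂ p μ)
    (la : ∀ x v, l x v = Lp.compMeasurePreserving (fun y => x + y) (measurePreserving_add_left μ x) v) :
    Rp l (fun f : C(G, ℂ) => ContinuousMap.toLp p μ ℂ f) := by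
  have q := fun x => (measurePreserving_add_left μ x).quasiMeasurePreserving
  have co : ∀ x v, l x v =ᵐ[μ] fun y => v (x + y) := fun x v => by
    rw [la]; exact Lp.coeFn_compMeasurePreserving _ _
  have co2 : ∀ x y v, l x (l y v) =ᵐ[μ] fun z => v (y + (x + z)) := fun x y v =>
    (co x _).trans ((q x).ae_eq_comp (co y v))
  refine ⟨fun v => Lp.ext ((co 0 v).trans (by simp)), fun x y => ContinuousLinearMap.ext fun v => ?_,
    fun x v => ?_, fun v => ?_, fun f hf x => ?_, fun f hf h => ?_, ?_⟩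
  · refine Lp.ext ((co2 x y v).trans (EventuallyEq.trans ?_ (co2 y x v).symm))
    simp only [add_left_comm, EventuallyEq.refl]
  · rw [la, Lp.norm_compMeasurePreserving]
  · simp only [la]
    exact continuous_const.compMeasurePreservingLp (ContinuousMap.curry
      ⟨fun q : G × G => q.1 + q.2, continuous_add⟩).continuous _ hp
  · have h2 := ContinuousMap.coeFn_toLp (p := p) (𝕜 := ℂ) μ f
    refine Lp.ext ((co _ _).trans ?_)
    filter_upwards [(q x).ae_eq_comp h2, h2,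
      Lp.coeFn_smul (f x) (ContinuousMap.toLp p μ ℂ f)] with y h3 h4 h5
    rw [h5, Pi.smul_apply, h4, smul_eq_mul, ← hf.2]
    exact h3
  · have := ContinuousMap.toLp_injective (p := p) (𝕜 := ℂ) μ (h.trans (map_zero _).symm)
    simpa [this] using hf.1 0
  · have := (ContinuousMap.toLp_denseRange ℂ μ ℂ hp).dense_image
      (ContinuousMap.toLp p μ ℂ).continuous (dense_span (K := G))
    refine this.mono ?_
    rintro _ ⟨k, hk, rfl⟩
    exact Submodule.apply_mem_span_image_of_mem_span (ContinuousMap.toLp p μ ℂ).toLinearMap hk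

end Pool.Agent.H.MP_d09f5b_an
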